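import Pool.Agent.R993.UC.Uniq
import Pool.Agent.R993.UC.Second

/-!
# MP_f2ebd2_mp, Q1: the stabilizer promise cannot be removed

There are a six-qubit stabilizer state `ρ` and a pure state `σ ≠ ρ` with the same uniform data,
while no other stabilizer state has the uniform data of `ρ`.
-/

namespace Pool.Agent.Results.MP_f2ebd2_mp.StabilizerPromiseNeeded

open Pool.Agent.R993.UC

theorem result :
    (¬ ∀ (N : ℕ) (ρ : Matrix (Fin N → Fin 2) (Fin N → Fin 2) ℂ), IsStab ρ →
      Certifiable {σ | IsStab σ} ρ → Certifiable {σ | IsDensity σ} ρ) ∧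
    ∃ ρ σ : Matrix (Fin 6 → Fin 2) (Fin 6 → Fin 2) ℂ,
      IsStab ρ ∧ Certifiable {τ | IsStab τ} ρ ∧
      IsPure σ ∧ IsDensity σ ∧ SameData σ ρ ∧ σ ≠ ρ := by
  refine ⟨fun h => ?_, psi, sigma, psi_stab, psi_certifiable, sigma_pure, sigma_density,
    sigma_data, sigma_ne⟩
  exact sigma_ne (h 6 psi psi_stab psi_certifiable sigma sigma_density sigma_data)

end Pool.Agent.Results.MP_f2ebd2_mp.StabilizerPromiseNeeded
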